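import Pool.Agent.Helper8.FH.St

/-! # FH module FH1: field automorphisms of `ℂ` and algebraically independent points -/

set_option autoImplicit false

namespace Pool.Agent.Helper62.FH

open Pool.Agent.Helper8.FH MvPolynomial

section shift

variable {ι A : Type*} [CommRing A] [Algebra ℚ A]

/-- the shift of the variables -/
noncomputable def sh (q : ι → ℚ) : MvPolynomial ι ℚ →ₐ[ℚ] MvPolynomial ι ℚ :=
  aeval fun i => X i + C (q i)

theorem sh_sh (q : ι → ℚ) : (sh (fun i => -q i)).comp (sh q) = AlgHom.id ℚ _ := by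
  refine MvPolynomial.algHom_ext fun i => ?_
  simp [sh, MvPolynomial.algebraMap_eq]

theorem sh_injective (q : ι → ℚ) : Function.Injective (sh q) := by
  refine Function.LeftInverse.injective (g := sh fun i => -q i) fun p => ?_
  have := congrArg (fun f : MvPolynomial ι ℚ →ₐ[ℚ] MvPolynomial ι ℚ => f p) (sh_sh q)
  simpa using this

theorem shift_indep (w : ι → A) (q : ι → ℚ) (hw : AlgebraicIndependent ℚ w) :
    AlgebraicIndependent ℚ fun i => w i + algebraMap ℚ A (q i) := by
  rw [algebraicIndependent_iff_injective_aeval] at hw ⊢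
  have h : (aeval fun i => w i + algebraMap ℚ A (q i)) = (aeval w).comp (sh q) := by
    refine MvPolynomial.algHom_ext fun i => ?_
    simp [sh]
  rw [h]
  exact hw.comp (sh_injective q)

theorem adjoin_le (w : ι → A) (q : ι → ℚ) :
    Algebra.adjoin ℚ (Set.range fun i => w i + algebraMap ℚ A (q i)) ≤
      Algebra.adjoin ℚ (Set.range w) := by
  refine Algebra.adjoin_le ?_
  rintro _ ⟨i, rfl⟩
  exact Subalgebra.add_mem _ (Algebra.subset_adjoin ⟨i, rfl⟩) (Subalgebra.algebraMap_mem _ _)

theorem adjoin_shift (w : ι → A) (q : ι → ℚ) :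
    Algebra.adjoin ℚ (Set.range fun i => w i + algebraMap ℚ A (q i)) =
      Algebra.adjoin ℚ (Set.range w) := by
  refine le_antisymm (adjoin_le w q) ?_
  have h := adjoin_le (fun i => w i + algebraMap ℚ A (q i)) fun i => -q i
  simpa using h

theorem shift_basis [IsDomain A] (w : ι → A) (q : ι → ℚ) (hw : IsTranscendenceBasis ℚ w) :
    IsTranscendenceBasis ℚ fun i => w i + algebraMap ℚ A (q i) := by
  have h1 := shift_indep w q hw.1
  rw [h1.isTranscendenceBasis_iff_isAlgebraic, adjoin_shift]
  exact hw.isAlgebraic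

end shift

theorem exists_aut {ι : Type} (w w' : ι → ℂ) (hw : IsTranscendenceBasis ℚ w)
    (hw' : IsTranscendenceBasis ℚ w') : ∃ σ : ℂ ≃+* ℂ, ∀ i, σ (w i) = w' i := by
  let _ := IsAlgClosed.isAlgClosure_of_transcendence_basis w hw
  let _ := IsAlgClosed.isAlgClosure_of_transcendence_basis w' hw'
  let e : Algebra.adjoin ℚ (Set.range w) ≃+* Algebra.adjoin ℚ (Set.range w') :=
    (hw.1.aevalEquiv.symm.trans hw'.1.aevalEquiv).toRingEquiv
  refine ⟨IsAlgClosure.equivOfEquiv ℂ ℂ e, fun i => ?_⟩
  have h1 : algebraMap (Algebra.adjoin ℚ (Set.range w)) ℂ (hw.1.aevalEquiv (X i)) = w i := by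
    rw [AlgebraicIndependent.algebraMap_aevalEquiv, aeval_X]
  have h2 : algebraMap (Algebra.adjoin ℚ (Set.range w')) ℂ (hw'.1.aevalEquiv (X i)) = w' i := by
    rw [AlgebraicIndependent.algebraMap_aevalEquiv, aeval_X]
  rw [← h1, IsAlgClosure.equivOfEquiv_algebraMap, ← h2]
  congr 1
  change hw'.1.aevalEquiv (hw.1.aevalEquiv.symm (hw.1.aevalEquiv (X i))) = _
  rw [AlgEquiv.symm_apply_apply]

theorem st_aut : StAut := by
  classical
  intro κ _ T hT q
  have hv : AlgebraicIndependent ℚ fun i => (T i : ℂ) := by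
    have := hT.map' (f := (Algebra.ofId ℝ ℂ).restrictScalars ℚ) (by
      intro a b hab
      exact Complex.ofReal_injective hab)
    exact this
  have hinj : Function.Injective fun i => (T i : ℂ) := hv.injective
  obtain ⟨t, ht, hb⟩ := exists_isTranscendenceBasis_superset (R := ℚ)
    (s := Set.range fun i => (T i : ℂ)) hv.coe_range
  let q' : t → ℚ := fun b => if h : ∃ i, (T i : ℂ) = b then q h.choose else 0
  obtain ⟨σ, hσ⟩ := exists_aut _ _ hb (shift_basis _ q' hb)
  refine ⟨σ, fun i => ?_⟩
  have h1 := hσ ⟨(T i : ℂ), ht ⟨i, rfl⟩⟩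
  have h2 : q' ⟨(T i : ℂ), ht ⟨i, rfl⟩⟩ = q i := by
    have hex : ∃ j, (T j : ℂ) = (T i : ℂ) := ⟨i, rfl⟩
    change (if h : ∃ j, (T j : ℂ) = (T i : ℂ) then q h.choose else 0) = q i
    rw [dif_pos hex]
    congr 1
    exact hinj hex.choose_spec
  rw [h2] at h1
  simpa using h1

theorem st_gen : StGen := by
  classical
  intro κ _ U hU hne
  have : Fintype κ := Fintype.ofFinite κ
  have hcount : Countable (MvPolynomial κ ℚ) := by
    rw [← Cardinal.mk_le_aleph0_iff]
    refine (MvPolynomial.cardinalMk_le_max (σ := κ) (R := ℚ)).trans ?_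
    simp
  have hdense : Dense (⋂ P : {P : MvPolynomial κ ℚ // P ≠ 0},
      {x : κ → ℝ | aeval x P.1 = 0}ᶜ) := by
    refine dense_iInter_of_isOpen (fun P => ?_) fun P => ?_
    · rw [isOpen_compl_iff]
      refine isClosed_eq ?_ continuous_const
      have : (fun x : κ → ℝ => aeval x P.1) = fun x => eval x (map (algebraMap ℚ ℝ) P.1) := by
        funext x
        rw [eval_map, aeval_def]
      rw [this]
      exact MvPolynomial.continuous_eval _
    · rw [← interior_eq_empty_iff_dense_compl]
      by_contra hcon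
      obtain ⟨x, hx⟩ := Set.nonempty_iff_ne_empty.2 hcon
      obtain ⟨ε, hε, hball⟩ := Metric.isOpen_iff.1 isOpen_interior x hx
      have hP : map (algebraMap ℚ ℝ) P.1 = 0 := by
        refine MvPolynomial.funext_set (fun i => Set.Ioo (x i - ε / 2) (x i + ε / 2))
          (fun i => Set.Ioo_infinite (by linarith)) fun y hy => ?_
        have hy' : y ∈ Metric.ball x ε := by
          rw [Metric.mem_ball]
          refine lt_of_le_of_lt ((dist_pi_le_iff (by positivity : (0 : ℝ) ≤ ε / 2)).2
            fun i => ?_) (by linarith)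
          have := hy i (Set.mem_univ i)
          rw [Real.dist_eq, abs_le]
          exact ⟨by linarith [this.1], by linarith [this.2]⟩
        have h0 := interior_subset (hball hy')
        rw [eval_map, map_zero]
        exact h0
      exact P.2 (map_injective _ (algebraMap ℚ ℝ).injective (by rw [hP, map_zero]))
  obtain ⟨T, hT, hTU⟩ := hdense.inter_open_nonempty U hU hne
  refine ⟨T, hT, ?_⟩
  rw [algebraicIndependent_iff]
  intro p hp
  by_contra hp0
  exact (Set.mem_iInter.1 hTU ⟨p, hp0⟩) hp

end Pool.Agent.Helper62.FH
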